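import Pool.Agent.TH56.FL.Pos
import Pool.Agent.TH56.FL.Sup
import Pool.Agent.TH56.FL.Ord
import Pool.Agent.TH56.FL.Fin

/-!
# The smallest graceful tree containing a given tree: `γ(T) ≤ m + 22 λ (λ - 2)` for `λ` leaves

Every finite tree `T` with `m` edges and `λ` leaves is a subtree of a graceful tree with at most
`m + 22 λ (λ - 2)` edges.  The excess does not depend on the number of edges.
-/

set_option autoImplicit false

namespace Pool.Agent.TH56.Kept.AdditiveLeaves

/-- A graph with `m` edges is graceful if there is an injective map `f` of the vertices to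
`{0, 1, …, m}` such that the edge labels `|f u - f v|` are exactly `1, …, m`. -/
def Graceful {V : Type} (T : SimpleGraph V) : Prop :=
  ∃ f : V → ℕ, Function.Injective f ∧ (∀ v, f v ≤ T.edgeSet.ncard) ∧
    {d : ℕ | ∃ u v : V, T.Adj u v ∧ d = Int.natAbs ((f u : ℤ) - (f v : ℤ))} =
      Set.Icc 1 T.edgeSet.ncard

/-- The numbers of edges of the finite graceful trees which have a subgraph isomorphic to `T`. -/
def gracefulSizes {V : Type} (T : SimpleGraph V) : Set ℕ :=
  {k | ∃ (W : Type) (_ : Fintype W) (T' : SimpleGraph W),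
    T'.IsTree ∧ Graceful T' ∧ T.IsContained T' ∧ T'.edgeSet.ncard = k}

/-- `γ(T)`: the least number of edges of a graceful tree which has a subgraph isomorphic to `T`. -/
noncomputable def gamma {V : Type} (T : SimpleGraph V) : ℕ := sInf (gracefulSizes T)

theorem le_of_mem {V : Type} {T : SimpleGraph V} {k : ℕ}
    (hk : k ∈ gracefulSizes T) : T.edgeSet.ncard ≤ k := by
  classical
  obtain ⟨W, _, T', _, _, ⟨φ⟩, rfl⟩ := hk
  have hinj : Function.Injective φ := φ.injective
  have h1 : Sym2.map φ '' T.edgeSet ⊆ T'.edgeSet := by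
    rintro _ ⟨e, he, rfl⟩
    induction e using Sym2.ind with
    | _ x y =>
      rw [Sym2.map_mk, SimpleGraph.mem_edgeSet]
      exact φ.toHom.map_adj ((SimpleGraph.mem_edgeSet T).1 he)
  calc T.edgeSet.ncard = (Sym2.map φ '' T.edgeSet).ncard :=
        (Set.ncard_image_of_injective _ (Sym2.map.injective hinj)).symm
    _ ≤ T'.edgeSet.ncard := Set.ncard_le_ncard h1 (Set.toFinite _)

/-- Let `T` be a finite tree with `m` edges and `λ` leaves (vertices with exactly one neighbour).
Then `γ(T)` is attained and `m ≤ γ(T) ≤ m + 22 λ (λ - 2)`.  (The subtraction is truncated only for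
the tree with one vertex, when `λ = 0` and `γ(T) = m = 0`.) -/
theorem result (V : Type) [Fintype V] (T : SimpleGraph V) (hT : T.IsTree) :
    gamma T ∈ gracefulSizes T ∧ T.edgeSet.ncard ≤ gamma T ∧
      gamma T ≤ T.edgeSet.ncard + 22 * {x : V | (T.neighborSet x).ncard = 1}.ncard *
        ({x : V | (T.neighborSet x).ncard = 1}.ncard - 2) := by
  classical
  have hcard : Fintype.card V = T.edgeSet.ncard + 1 := by
    have h1 := hT.card_edgeFinset
    rw [Set.ncard_eq_toFinset_card', ← h1]
    rfl
  obtain ⟨k, hk1, hk2⟩ : ∃ k ∈ gracefulSizes T, k ≤ T.edgeSet.ncard +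
      22 * {x : V | (T.neighborSet x).ncard = 1}.ncard *
        ({x : V | (T.neighborSet x).ncard = 1}.ncard - 2) := by
    rcases Nat.eq_zero_or_pos T.edgeSet.ncard with hm0 | hm0
    · -- one vertex
      have hsub : ∀ u v : V, u = v := fun u v => Fintype.card_le_one_iff.1 (by omega) u v
      refine ⟨0, ⟨V, inferInstance, T, hT, ⟨fun _ => 0, fun u v _ => hsub u v,
        fun _ => Nat.zero_le _, ?_⟩, SimpleGraph.IsContained.refl T, hm0⟩, Nat.zero_le _⟩
      ext d
      rw [Set.mem_ofPred_eq, Set.mem_Icc]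
      constructor
      · rintro ⟨u, v, huv, -⟩
        exact absurd (hsub u v) huv.ne
      · intro h
        omega
    · obtain ⟨J, hJ, M, T', t1, t2, t3, t4, t5⟩ := Pool.Agent.TH56.FL.fin_main
        Pool.Agent.TH56.FL.pos Pool.Agent.TH56.FL.sup Pool.Agent.TH56.FL.ord hT hm0
      refine ⟨M, ⟨Fin (M + 1), inferInstance, T', t1, t2, t3, t4⟩, ?_⟩
      rw [t5]
      generalize {x : V | (T.neighborSet x).ncard = 1}.ncard = l at *
      obtain ⟨i, rfl⟩ : ∃ i, l = J + 2 + i := ⟨l - (J + 2), by omega⟩
      have h2 : J + 2 + i - 2 = J + i := by omega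
      rw [h2]
      nlinarith [Nat.zero_le (J * i), Nat.zero_le (i * i)]
  have hmem : gamma T ∈ gracefulSizes T := Nat.sInf_mem ⟨k, hk1⟩
  exact ⟨hmem, le_of_mem hmem, (Nat.sInf_le hk1).trans hk2⟩

end Pool.Agent.TH56.Kept.AdditiveLeaves
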